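import Pool.Agent.W181.WH.Stm

set_option autoImplicit false

namespace Pool.Agent.W395.WH.ALG

open Pool.Agent.W181.WH MvPolynomial

/-! ### Vieta -/

lemma vieta {n : ℕ} (α : Fin n → ℂ) (z : ℂ) :
    ∏ j, (z - α j) = ∑ k ∈ Finset.range (n + 1), ((-1) ^ k * z ^ (n - k)) * es α k := by
  rw [Finset.prod_sub, Finset.sum_powerset, Finset.card_univ, Fintype.card_fin]
  apply Finset.sum_congr rfl
  intro k _
  unfold es
  rw [Finset.mul_sum]
  apply Finset.sum_congr rfl
  intro J hJ
  rw [Finset.mem_powersetCard] at hJ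
  rw [Finset.prod_const, Finset.card_sdiff_of_subset hJ.1, hJ.2, Finset.card_univ,
    Fintype.card_fin]

/-- comparison of coefficients -/
lemma coeffs {M : Type} [AddCommGroup M] [Module ℂ M] (l : ℕ) (v : ℕ → M)
    (h : ∀ z : ℂ, ∑ k ∈ Finset.range (l + 1), ((-1) ^ k * z ^ (l - k) : ℂ) • v k = 0) :
    ∀ k ≤ l, v k = 0 := by
  intro k hk
  rw [← Module.forall_dual_apply_eq_zero_iff ℂ]
  intro f
  let q : Polynomial ℂ := ∑ k ∈ Finset.range (l + 1),
    Polynomial.C ((-1) ^ k * f (v k)) * Polynomial.X ^ (l - k)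
  have hq : q = 0 := by
    apply Polynomial.funext
    intro z
    have h1 := congrArg f (h z)
    rw [map_sum, map_zero] at h1
    rw [Polynomial.eval_zero, ← h1]
    simp only [q]
    rw [Polynomial.eval_finsetSum]
    apply Finset.sum_congr rfl
    intro k _
    rw [Polynomial.eval_mul, Polynomial.eval_C, Polynomial.eval_pow, Polynomial.eval_X, map_smul,
      smul_eq_mul]
    ring
  have hc : q.coeff (l - k) = (-1) ^ k * f (v k) := by
    simp only [q]
    rw [Polynomial.finsetSum_coeff]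
    rw [Finset.sum_eq_single k]
    · rw [Polynomial.coeff_C_mul, Polynomial.coeff_X_pow, if_pos rfl, mul_one]
    · intro j hj hjk
      rw [Finset.mem_range] at hj
      rw [Polynomial.coeff_C_mul, Polynomial.coeff_X_pow, if_neg (by omega), mul_zero]
    · intro hk'
      exact absurd (Finset.mem_range.2 (by omega)) hk'
  rw [hq, Polynomial.coeff_zero] at hc
  have h2 : ((-1 : ℂ)) ^ k ≠ 0 := pow_ne_zero _ (by norm_num)
  exact (mul_eq_zero.1 hc.symm).resolve_left h2

lemma eigen (hC : S_COEF) {M : Type} [AddCommGroup M] [Module ℂ M]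
    (p T : ℕ → Module.End ℂ M) (l : ℕ) (F : M) (α : Fin l → ℂ)
    (h : ∀ z : ℂ, Ach p T z l F = (∏ j, (z - α j)) • F) (k : ℕ) (hk : k ≤ l) :
    Dch p T l k F = es α k • F := by
  have h1 := coeffs l (fun k => Dch p T l k F - es α k • F) (by
    intro z
    have h2 := h z
    rw [(hC (Module.End ℂ M) p T z l).2.2, vieta, LinearMap.sum_apply] at h2
    have h3 : ∀ k ∈ Finset.range (l + 1), ((-1) ^ k * z ^ (l - k) : ℂ) •
        (Dch p T l k F - es α k • F) =
        (((-1) ^ k * z ^ (l - k) : ℂ) • Dch p T l k) F -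
          (((-1) ^ k * z ^ (l - k) : ℂ) * es α k) • F := by
      intro k _
      rw [smul_sub, LinearMap.smul_apply, smul_smul _ (es α k) F]
    rw [Finset.sum_congr rfl h3, Finset.sum_sub_distrib, h2, ← Finset.sum_smul, sub_self]) k hk
  exact sub_eq_zero.1 h1

/-! ### Evaluation -/

lemma pow_eigen {M : Type} [AddCommGroup M] [Module ℂ M] (D : Module.End ℂ M) (e : ℂ) (F : M)
    (h : D F = e • F) (k : ℕ) : (D ^ k) F = e ^ k • F := by
  induction k with
  | zero => simp
  | succ k ih =>
    rw [pow_succ, Module.End.mul_apply, h, map_smul, ih, smul_smul, pow_succ, mul_comm]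

lemma list_eigen {M : Type} [AddCommGroup M] [Module ℂ M] (F : M) :
    ∀ (n : ℕ) (D : Fin n → Module.End ℂ M) (e : Fin n → ℂ) (k : Fin n → ℕ),
      (∀ i, D i F = e i • F) →
      (List.ofFn (fun i => D i ^ k i)).prod F = (∏ i, e i ^ k i) • F := by
  intro n
  induction n with
  | zero => intro D e k _; simp
  | succ n ih =>
    intro D e k h
    rw [List.ofFn_succ, List.prod_cons, Module.End.mul_apply,
      ih (fun i => D i.succ) (fun i => e i.succ) (fun i => k i.succ) (fun i => h i.succ),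
      map_smul, pow_eigen (D 0) (e 0) F (h 0), smul_smul, Fin.prod_univ_succ, mul_comm]

lemma evalN_eigen {N n : ℕ} {M : Type} [AddCommGroup M] [Module ℂ M]
    (R : Rep N (Module.End ℂ M)) (x : MvPolynomial (Fin N) ℂ) (D : Fin n → Module.End ℂ M)
    (e : Fin n → ℂ) (F : M) (h : ∀ i, D i F = e i • F) (G : MvPolynomial (Option (Fin n)) ℂ) :
    evalN (R.θ x) D G F =
      R.θ (aeval (fun o : Option (Fin n) => o.elim x (fun i => C (e i))) G) F := by
  unfold evalN
  rw [MvPolynomial.aeval_def, MvPolynomial.eval₂_eq', LinearMap.sum_apply, map_sum,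
    LinearMap.sum_apply]
  apply Finset.sum_congr rfl
  intro d _
  rw [LinearMap.smul_apply, Module.End.mul_apply, list_eigen F n D e (fun i => d (some i)) h,
    map_smul, Fintype.prod_option]
  simp only [Option.elim_none, Option.elim_some]
  have h1 : (∏ i : Fin n, (C (e i) : MvPolynomial (Fin N) ℂ) ^ d (some i)) =
      C (∏ i : Fin n, e i ^ d (some i)) := by
    rw [map_prod]
    apply Finset.prod_congr rfl
    intro i _
    rw [map_pow]
  rw [h1, ← MvPolynomial.algebraMap_eq, map_mul, map_mul, map_pow, AlgHom.commutes,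
    AlgHom.commutes, Module.End.mul_apply, Module.End.mul_apply, Module.algebraMap_end_apply,
    Module.algebraMap_end_apply, map_smul]

lemma aeval_shZ {N n : ℕ} (x : MvPolynomial (Fin N) ℂ) (e : Fin n → ℂ)
    (g : MvPolynomial (Option (Fin n)) ℂ) (i : ℕ) :
    aeval (fun o : Option (Fin n) => o.elim x (fun i => (C (e i) : MvPolynomial (Fin N) ℂ)))
      (shZ g i) = aeval (fun o : Option (Fin n) => o.elim (x + C (i : ℂ))
        (fun i => (C (e i) : MvPolynomial (Fin N) ℂ))) g := by
  unfold shZ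
  rw [← AlgHom.comp_apply]
  congr 1
  apply MvPolynomial.algHom_ext
  intro o
  rw [AlgHom.comp_apply, MvPolynomial.aeval_X, MvPolynomial.aeval_X]
  cases o with
  | none =>
    simp only [Option.elim_none]
    rw [map_add, MvPolynomial.aeval_X, Option.elim_none, MvPolynomial.aeval_C,
      MvPolynomial.algebraMap_eq]
  | some j =>
    simp only [Option.elim_some]
    rw [MvPolynomial.aeval_X, Option.elim_some]

lemma es_C {N n : ℕ} (α : Fin n → ℂ) (k : ℕ) :
    (C (es α k) : MvPolynomial (Fin N) ℂ) = es (fun j => (C (α j) : MvPolynomial (Fin N) ℂ)) k := by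
  unfold es
  rw [map_sum]
  apply Finset.sum_congr rfl
  intro J _
  rw [map_prod]

lemma aeval_G {N n k : ℕ} (m : Fin N) (δ : ℕ) (α : Fin n → ℂ)
    (g : MvPolynomial (Option (Fin n)) ℂ) (hg : IsG n k g) :
    aeval (fun o : Option (Fin n) => o.elim (X m)
      (fun i => (C (es α ((i : ℕ) + 1)) : MvPolynomial (Fin N) ℂ)))
      (∏ i ∈ Finset.range δ, shZ g i) = prodJ m k δ α := by
  rw [map_prod]
  have h1 : ∀ i ∈ Finset.range δ,
      aeval (fun o : Option (Fin n) => o.elim (X m)
        (fun i => (C (es α ((i : ℕ) + 1)) : MvPolynomial (Fin N) ℂ))) (shZ g i) =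
      ∏ J ∈ Finset.powersetCard k (Finset.univ : Finset (Fin n)),
        (X m + C (i : ℂ) - ∑ j ∈ J, (C (α j) : MvPolynomial (Fin N) ℂ)) := by
    intro i _
    rw [aeval_shZ, ← hg.2 (MvPolynomial (Fin N) ℂ) (X m + C (i : ℂ)) (fun j => C (α j))]
    congr 2
    funext o
    cases o with
    | none => rfl
    | some j =>
      simp only [Option.elim_some]
      exact es_C α _
  rw [Finset.prod_congr rfl h1, Finset.prod_comm]
  unfold prodJ rise
  apply Finset.prod_congr rfl
  intro J _
  apply Finset.prod_congr rfl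
  intro i _
  rw [map_sum, map_natCast]
  ring

/-! ### Exact degrees -/

/-- an operator is a sum of operators `P(s) T^S` of exact degree -/
def Ex {N : ℕ} {B : Type} [Ring B] [Algebra ℂ B] (R : Rep N B) (m : Fin N) (δ w : ℕ) (b : B) :
    Prop :=
  ∃ l : List (MvPolynomial (Fin N) ℂ × (Fin N → ℕ)),
    (∀ p ∈ l, p.1 ≠ 0 ∧ p.1.totalDegree + 2 * ∑ j, p.2 j = w ∧ δ ≤ p.2 m) ∧
    b = (l.map fun p => R.θ p.1 * R.τ p.2).sum

lemma deg_mono {N : ℕ} (m : Fin N) (a : ℕ) (c : ℂ) (hc : c ≠ 0) :
    (monomial (Finsupp.single m a) c : MvPolynomial (Fin N) ℂ).totalDegree = a := by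
  rw [MvPolynomial.totalDegree_monomial _ hc]
  rw [Finsupp.sum_single_index rfl]

lemma exact_poly {N : ℕ} (m : Fin N) (P : MvPolynomial (Fin N) ℂ) (a : ℕ)
    (ha : P.totalDegree ≤ a) : ∃ c : ℂ, c ≠ 0 ∧
      P + monomial (Finsupp.single m a) c ≠ 0 ∧
      (P + monomial (Finsupp.single m a) c).totalDegree = a := by
  obtain ⟨c, hc, hc2⟩ : ∃ c : ℂ, c ≠ 0 ∧ coeff (Finsupp.single m a) P + c ≠ 0 := by
    by_cases h : coeff (Finsupp.single m a) P + 1 = 0
    · refine ⟨2, two_ne_zero, ?_⟩
      have : coeff (Finsupp.single m a) P = -1 := eq_neg_of_add_eq_zero_left h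
      rw [this]
      norm_num
    · exact ⟨1, one_ne_zero, h⟩
  have h1 : coeff (Finsupp.single m a) (P + monomial (Finsupp.single m a) c) ≠ 0 := by
    rw [MvPolynomial.coeff_add, MvPolynomial.coeff_monomial, if_pos rfl]
    exact hc2
  refine ⟨c, hc, ?_, ?_⟩
  · intro h0
    rw [h0, MvPolynomial.coeff_zero] at h1
    exact h1 rfl
  · apply le_antisymm
    · refine le_trans (MvPolynomial.totalDegree_add _ _) ?_
      rw [deg_mono m a c hc]
      exact max_le ha le_rfl
    · have h2 := MvPolynomial.le_totalDegree (MvPolynomial.mem_support_iff.2 h1)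
      rw [Finsupp.sum_single_index rfl] at h2
      exact h2

lemma ex_of_mem {N : ℕ} {B : Type} [Ring B] [Algebra ℂ B] (R : Rep N B) (m : Fin N) (δ w : ℕ)
    (b : B) (hb : b ∈ R.V m δ w) : Ex R m δ w b := by
  unfold Pool.Agent.W181.WH.Rep.V at hb
  induction hb using Submodule.span_induction with
  | mem b hb =>
    obtain ⟨P, S, h1, h2, rfl⟩ := hb
    obtain ⟨c, hc, hP, hdeg⟩ := exact_poly m P (w - 2 * ∑ j, S j) (by omega)
    refine ⟨[(P + monomial (Finsupp.single m (w - 2 * ∑ j, S j)) c, S),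
      (monomial (Finsupp.single m (w - 2 * ∑ j, S j)) (-c), S)], ?_, ?_⟩
    · intro p hp
      rw [List.mem_cons, List.mem_cons] at hp
      rcases hp with rfl | rfl | hp
      · refine ⟨hP, ?_, h2⟩
        dsimp only
        rw [hdeg]
        omega
      · refine ⟨?_, ?_, h2⟩
        · dsimp only
          rw [Ne, MvPolynomial.monomial_eq_zero]
          exact neg_ne_zero.2 hc
        · dsimp only
          rw [deg_mono _ _ _ (neg_ne_zero.2 hc)]
          omega
      · exact absurd hp List.not_mem_nil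
    · simp only [List.map_cons, List.map_nil, List.sum_cons, List.sum_nil, add_zero]
      rw [← add_mul, ← map_add]
      congr 2
      rw [add_assoc, ← map_add, add_neg_cancel, map_zero, add_zero]
  | zero => exact ⟨[], by simp, by simp⟩
  | add b b' _ _ h h' =>
    obtain ⟨l, h1, h2⟩ := h
    obtain ⟨l', h1', h2'⟩ := h'
    refine ⟨l ++ l', ?_, ?_⟩
    · intro p hp
      rcases List.mem_append.1 hp with hp | hp
      · exact h1 p hp
      · exact h1' p hp
    · rw [List.map_append, List.sum_append, h2, h2']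
  | smul c b _ h =>
    obtain ⟨l, h1, h2⟩ := h
    by_cases hc : c = 0
    · exact ⟨[], by simp, by simp [hc]⟩
    · refine ⟨l.map fun p => (c • p.1, p.2), ?_, ?_⟩
      · intro p hp
        obtain ⟨q, hq, rfl⟩ := List.mem_map.1 hp
        obtain ⟨g1, g2, g3⟩ := h1 q hq
        refine ⟨smul_ne_zero hc g1, ?_, g3⟩
        dsimp only
        rw [← g2]
        congr 1
        apply le_antisymm (MvPolynomial.totalDegree_smul_le c q.1)
        have h3 : q.1 = c⁻¹ • (c • q.1) := by rw [smul_smul, inv_mul_cancel₀ hc, one_smul]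
        calc q.1.totalDegree = (c⁻¹ • (c • q.1)).totalDegree := by rw [← h3]
          _ ≤ (c • q.1).totalDegree := MvPolynomial.totalDegree_smul_le _ _
      · rw [h2, List.smul_sum, List.map_map, List.map_map]
        congr 1
        apply List.map_congr_left
        intro p _
        simp only [Function.comp_apply]
        rw [map_smul, smul_mul_assoc]

lemma two_le_choose {N : ℕ} (m : Fin N) : 2 ≤ (N + 1).choose ((m : ℕ) + 1) := by
  have hm := m.2
  rw [Nat.choose_succ_succ']
  have h1 : 0 < N.choose (m : ℕ) := Nat.choose_pos (by omega)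
  have h2 : 0 < N.choose ((m : ℕ) + 1) := Nat.choose_pos (by omega)
  omega

theorem t_alg : S_DEL → S_SYM → S_COEF → S_ALG := by
  intro hDEL hSYM hCOEF N M _ _ R m δ
  obtain ⟨g, hg⟩ := hSYM (N + 1) ((m : ℕ) + 1)
  obtain ⟨l, hl, hsum⟩ := ex_of_mem R m δ _ _ (hDEL N (Module.End ℂ M) R m g hg δ)
  obtain ⟨w, hw⟩ : ∃ w, w = δ * (N + 1).choose ((m : ℕ) + 1) := ⟨_, rfl⟩
  rw [← hw] at hl
  have h2δ : 2 * δ ≤ w := by
    rw [hw, mul_comm]
    exact Nat.mul_le_mul_left _ (two_le_choose m)
  have hSsum : ∑ j, (Pi.single m δ : Fin N → ℕ) j = δ := by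
    rw [Finset.sum_pi_single']
    simp
  -- add two terms with sum zero
  obtain ⟨L, hL, hLsum, hLne⟩ : ∃ L : List (MvPolynomial (Fin N) ℂ × (Fin N → ℕ)),
      (∀ p ∈ L, p.1 ≠ 0 ∧ p.1.totalDegree + 2 * ∑ j, p.2 j = w ∧ δ ≤ p.2 m) ∧
      evalN (R.θ (MvPolynomial.X m))
        (fun i : Fin (N + 1) => Dch R.p R.T (N + 1) ((i : ℕ) + 1))
        (∏ i ∈ Finset.range δ, shZ g i) = (L.map fun p => R.θ p.1 * R.τ p.2).sum ∧
      1 ≤ L.length := by
    refine ⟨(monomial (Finsupp.single m (w - 2 * δ)) 1, Pi.single m δ) ::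
      (monomial (Finsupp.single m (w - 2 * δ)) (-1), Pi.single m δ) :: l, ?_, ?_, ?_⟩
    · intro p hp
      rw [List.mem_cons, List.mem_cons] at hp
      rcases hp with rfl | rfl | hp
      · refine ⟨?_, ?_, ?_⟩
        · dsimp only
          rw [Ne, MvPolynomial.monomial_eq_zero]
          exact one_ne_zero
        · dsimp only
          rw [deg_mono _ _ _ one_ne_zero, hSsum]
          omega
        · dsimp only
          rw [Pi.single_eq_same]
      · refine ⟨?_, ?_, ?_⟩
        · dsimp only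
          rw [Ne, MvPolynomial.monomial_eq_zero]
          exact neg_ne_zero.2 one_ne_zero
        · dsimp only
          rw [deg_mono _ _ _ (neg_ne_zero.2 one_ne_zero), hSsum]
          omega
        · dsimp only
          rw [Pi.single_eq_same]
      · exact hl p hp
    · rw [hsum, List.map_cons, List.map_cons, List.sum_cons, List.sum_cons, ← add_assoc,
        ← add_mul, ← map_add]
      dsimp only
      rw [← map_add, add_neg_cancel, map_zero, map_zero, zero_mul, zero_add]
    · rw [List.length_cons]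
      omega
  refine ⟨L.length, fun i => (L.get i).1, fun i => (L.get i).2, hLne, ?_, ?_, ?_⟩
  · intro i
    have h1 := hL (L.get i) (List.get_mem _ _)
    rw [← hw]
    exact ⟨h1.1, h1.2.1⟩
  · intro i
    exact (hL (L.get i) (List.get_mem _ _)).2.2
  · intro F α hF
    have hD : ∀ i : Fin (N + 1), Dch R.p R.T (N + 1) ((i : ℕ) + 1) F =
        es α ((i : ℕ) + 1) • F := fun i =>
      eigen hCOEF R.p R.T (N + 1) F α hF ((i : ℕ) + 1) (by have := i.2; omega)
    have h1 := evalN_eigen R (X m) (fun i : Fin (N + 1) => Dch R.p R.T (N + 1) ((i : ℕ) + 1))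
      (fun i => es α ((i : ℕ) + 1)) F hD (∏ i ∈ Finset.range δ, shZ g i)
    rw [aeval_G m δ α g hg] at h1
    rw [← h1, hLsum]
    have h2 : (L.map fun p => R.θ p.1 * R.τ p.2).sum =
        ∑ i : Fin L.length, R.θ (L.get i).1 * R.τ (L.get i).2 :=
      (Fin.sum_univ_fun_getElem L (fun p => R.θ p.1 * R.τ p.2)).symm
    rw [h2, LinearMap.sum_apply]
    rfl

end Pool.Agent.W395.WH.ALG
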