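import Pool.Agent.W181.WH.Stm

set_option autoImplicit false

namespace Pool.Agent.W395.WH.ZINT

open Pool.Agent.W181.WH MeasureTheory

lemma one_integrable (c : ℝ) (hc : 0 < c) :
    Integrable (fun y : ℝ => Real.exp (-Real.pi * (c * y) ^ 2)) := by
  have h : (fun y : ℝ => Real.exp (-Real.pi * (c * y) ^ 2)) =
      fun y : ℝ => Real.exp (-(Real.pi * c ^ 2) * y ^ 2) := by
    funext y
    congr 1
    ring
  rw [h]
  exact integrable_exp_neg_mul_sq (by positivity)

lemma one_int (c : ℝ) (hc : 0 < c) :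
    ∫ y : ℝ, Real.exp (-Real.pi * (c * y) ^ 2) = c⁻¹ := by
  have h : (fun y : ℝ => Real.exp (-Real.pi * (c * y) ^ 2)) =
      fun y : ℝ => Real.exp (-(Real.pi * c ^ 2) * y ^ 2) := by
    funext y
    congr 1
    ring
  rw [h, integral_gaussian]
  have h2 : Real.pi / (Real.pi * c ^ 2) = (c⁻¹) ^ 2 := by
    field_simp
  rw [h2, Real.sqrt_sq (by positivity)]

lemma one_char (c : ℝ) (hc : 0 < c) :
    ∫ y : ℝ, ((Real.exp (-Real.pi * (c * y) ^ 2) : ℝ) : ℂ) *
      Complex.exp (-(2 * Real.pi * Complex.I) * (y : ℂ)) =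
      ((c⁻¹ * Real.exp (-Real.pi / c ^ 2) : ℝ) : ℂ) := by
  have hb : 0 < (((Real.pi * c ^ 2 : ℝ) : ℂ)).re := by
    rw [Complex.ofReal_re]; positivity
  have h := fourierIntegral_gaussian hb (-(2 * Real.pi : ℂ))
  have h1 : (fun y : ℝ => ((Real.exp (-Real.pi * (c * y) ^ 2) : ℝ) : ℂ) *
      Complex.exp (-(2 * Real.pi * Complex.I) * (y : ℂ))) =
      fun x : ℝ => Complex.exp (Complex.I * -(2 * Real.pi : ℂ) * x) *
        Complex.exp (-((Real.pi * c ^ 2 : ℝ) : ℂ) * x ^ 2) := by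
    funext y
    rw [Complex.ofReal_exp, mul_comm]
    congr 1
    · congr 1
      ring
    · congr 1
      push_cast
      ring
  rw [h1, h]
  have hcc : (c : ℂ) ≠ 0 := by exact_mod_cast hc.ne'
  have hpi : (Real.pi : ℂ) ≠ 0 := by exact_mod_cast Real.pi_pos.ne'
  have h2 : ((Real.pi : ℂ) / ((Real.pi * c ^ 2 : ℝ) : ℂ)) = (((c⁻¹) ^ 2 : ℝ) : ℂ) := by
    push_cast
    field_simp
  have h3 : ((((c⁻¹) ^ 2 : ℝ) : ℂ)) ^ (1 / 2 : ℂ) = ((c⁻¹ : ℝ) : ℂ) := by
    have h4 : (1 / 2 : ℂ) = ((1 / 2 : ℝ) : ℂ) := by push_cast; rfl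
    rw [h4, ← Complex.ofReal_cpow (by positivity)]
    congr 1
    rw [← Real.sqrt_eq_rpow, Real.sqrt_sq (by positivity)]
  have h5 : -(-(2 * Real.pi : ℂ)) ^ 2 / (4 * ((Real.pi * c ^ 2 : ℝ) : ℂ)) =
      ((-Real.pi / c ^ 2 : ℝ) : ℂ) := by
    push_cast
    field_simp
    ring
  rw [h2, h3, h5, Complex.ofReal_mul, Complex.ofReal_exp]

lemma mulVec_zero {m : ℕ} (w : LIdx (m + 1) → ℝ) (z : Fin (m + 1) → ℝ) :
    (lM w).mulVec z 0 = z 0 := by
  unfold Matrix.mulVec dotProduct
  rw [Finset.sum_eq_single 0]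
  · unfold lM
    dsimp only
    rw [dif_neg (lt_irrefl _), if_pos rfl, one_mul]
  · intro j _ hj
    unfold lM
    dsimp only
    rw [dif_neg (by exact Fin.not_lt_zero j), if_neg (Ne.symm hj), zero_mul]
  · intro h
    exact absurd (Finset.mem_univ _) h

theorem t_zint : S_UNI → S_ZINT := by
  intro hUNI m D t w hD ht
  obtain ⟨-, hinv, -, -, -, hmp⟩ := hUNI (m + 1)
  have hs : 0 < Real.sqrt D := Real.sqrt_pos.2 hD
  have hc : ∀ i, 0 < t i * Real.sqrt D := fun i => mul_pos (ht i) hs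
  have hcont : ∀ u : LIdx (m + 1) → ℝ, Continuous (fun z : Fin (m + 1) → ℝ => (lM u).mulVec z) :=
    fun u => Continuous.matrix_mulVec continuous_const continuous_id
  let T : (Fin (m + 1) → ℝ) ≃ᵐ (Fin (m + 1) → ℝ) :=
    { toFun := fun z => (lM w).mulVec z
      invFun := fun z => (lM (invC w)).mulVec z
      left_inv := fun z => by
        show (lM (invC w)).mulVec ((lM w).mulVec z) = z
        rw [Matrix.mulVec_mulVec, (hinv w).1, Matrix.one_mulVec]
      right_inv := fun z => by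
        show (lM w).mulVec ((lM (invC w)).mulVec z) = z
        rw [Matrix.mulVec_mulVec, (hinv w).2, Matrix.one_mulVec]
      measurable_toFun := (hcont w).measurable
      measurable_invFun := (hcont (invC w)).measurable }
  have hT : MeasurePreserving T volume volume := hmp w
  have hexp : ∀ y : Fin (m + 1) → ℝ, Real.exp (-Real.pi * (D * ∑ i, (t i * y i) ^ 2)) =
      ∏ i, Real.exp (-Real.pi * ((t i * Real.sqrt D) * y i) ^ 2) := by
    intro y
    rw [← Real.exp_sum, Finset.mul_sum, Finset.mul_sum]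
    congr 1
    apply Finset.sum_congr rfl
    intro i _
    have h1 : ((t i * Real.sqrt D) * y i) ^ 2 = (t i * y i) ^ 2 * (Real.sqrt D) ^ 2 := by ring
    rw [h1, Real.sq_sqrt hD.le]
    ring
  refine ⟨?_, ?_, ?_⟩
  · have h1 : Integrable (fun y : Fin (m + 1) → ℝ =>
        ∏ i, Real.exp (-Real.pi * ((t i * Real.sqrt D) * y i) ^ 2)) :=
      Integrable.fintype_prod (f := fun i (y : ℝ) =>
        Real.exp (-Real.pi * ((t i * Real.sqrt D) * y) ^ 2)) (fun i => one_integrable _ (hc i))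
    have h2 := hT.integrable_comp_of_integrable h1
    refine h2.congr (Filter.Eventually.of_forall fun z => ?_)
    exact (hexp ((lM w).mulVec z)).symm
  · have h1 := hT.integral_comp' (g := fun y : Fin (m + 1) → ℝ =>
        ∏ i, Real.exp (-Real.pi * ((t i * Real.sqrt D) * y i) ^ 2))
    have h2 : ∫ z : Fin (m + 1) → ℝ,
        Real.exp (-Real.pi * (D * ∑ i, (t i * (lM w).mulVec z i) ^ 2)) =
        ∫ z : Fin (m + 1) → ℝ, ∏ i, Real.exp (-Real.pi * ((t i * Real.sqrt D) * T z i) ^ 2) :=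
      integral_congr_ae (Filter.Eventually.of_forall fun z => hexp ((lM w).mulVec z))
    rw [h2, h1, integral_fintype_prod_volume_eq_prod
      (f := fun i (y : ℝ) => Real.exp (-Real.pi * ((t i * Real.sqrt D) * y) ^ 2))]
    exact Finset.prod_congr rfl fun i _ => one_int _ (hc i)
  · let f : Fin (m + 1) → ℝ → ℂ := fun i y =>
      ((Real.exp (-Real.pi * ((t i * Real.sqrt D) * y) ^ 2) : ℝ) : ℂ) *
        (if i = 0 then Complex.exp (-(2 * Real.pi * Complex.I) * (y : ℂ)) else 1)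
    have h1 := hT.integral_comp' (g := fun y : Fin (m + 1) → ℝ => ∏ i, f i (y i))
    have h2 : ∫ z : Fin (m + 1) → ℝ,
        ((Real.exp (-Real.pi * (D * ∑ i, (t i * (lM w).mulVec z i) ^ 2)) : ℝ) : ℂ) *
        Complex.exp (-(2 * Real.pi * Complex.I) * (z 0 : ℂ)) =
        ∫ z : Fin (m + 1) → ℝ, ∏ i, f i (T z i) := by
      refine integral_congr_ae (Filter.Eventually.of_forall fun z => ?_)
      simp only [f]
      rw [Finset.prod_mul_distrib, Finset.prod_ite_eq', if_pos (Finset.mem_univ _),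
        hexp ((lM w).mulVec z), Complex.ofReal_prod]
      have h3 : T z 0 = z 0 := mulVec_zero w z
      rw [h3]
      rfl
    rw [h2, h1, integral_fintype_prod_volume_eq_prod (f := f)]
    have h4 : ∀ i, ∫ y : ℝ, f i y = (((t i * Real.sqrt D)⁻¹ *
        (if i = 0 then Real.exp (-Real.pi / (t i * Real.sqrt D) ^ 2) else 1) : ℝ) : ℂ) := by
      intro i
      simp only [f]
      by_cases hi : i = 0
      · simp only [if_pos hi]
        exact one_char _ (hc i)
      · simp only [if_neg hi, mul_one]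
        rw [integral_complex_ofReal, one_int _ (hc i)]
    rw [Finset.prod_congr rfl fun i _ => h4 i, ← Complex.ofReal_prod, Finset.prod_mul_distrib,
      Finset.prod_ite_eq', if_pos (Finset.mem_univ _)]
    have h5 : (t 0 * Real.sqrt D) ^ 2 = t 0 ^ 2 * D := by
      rw [mul_pow, Real.sq_sqrt hD.le]
    rw [h5]

end Pool.Agent.W395.WH.ZINT
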